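import Mathlib

set_option autoImplicit false

namespace Pool.Agent.Results.MP_8ee885_co.Counter

open Finset Matrix

/-- The vector space `F_2^r`. -/
abbrev V (r : ℕ) := Fin r → ZMod 2

/-- Generator multiset: a list of nonzero vectors spanning `F_2^r`. -/
def IsGen {r : ℕ} (M : List (V r)) : Prop :=
  (∀ v ∈ M, v ≠ 0) ∧ Submodule.span (ZMod 2) {v | v ∈ M} = ⊤

/-- The gcd of the positive multiplicities. -/
def gcdMult {r : ℕ} (M : List (V r)) : ℕ := M.toFinset.gcd fun v => M.count v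

/-- Laplacian of the Cayley graph. -/
def lap {r : ℕ} (M : List (V r)) : Matrix (V r) (V r) ℤ := fun u w =>
  if u = w then M.length else -(M.countP fun v => u + v = w : ℕ)

/-- The image of the Laplacian. -/
def im {r : ℕ} (M : List (V r)) : Submodule ℤ (V r → ℤ) := LinearMap.range (lap M).mulVecLin

/-- The cokernel of the Laplacian. -/
def Coker {r : ℕ} (M : List (V r)) : Type := (V r → ℤ) ⧸ im M

instance grp {r : ℕ} (M : List (V r)) : AddCommGroup (Coker M) :=
  Submodule.Quotient.addCommGroup (im M)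

/-- The sandpile group: torsion subgroup of the cokernel of the Laplacian. -/
def K {r : ℕ} (M : List (V r)) : AddSubgroup (Coker M) := AddCommGroup.torsion (Coker M)

/-- The sandpile group as a type. -/
def KT {r : ℕ} (M : List (V r)) : Type := K M

instance grpK {r : ℕ} (M : List (V r)) : AddCommGroup (KT M) :=
  AddSubgroup.toAddCommGroup (K M)

/-- The dimension of `K / 2K` over `F_2`. -/
noncomputable def d {r : ℕ} (M : List (V r)) : ℕ := Module.finrank (ZMod 2) (ModN (KT M) 2)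

/-- The eigenvalue `λ_u`. -/
def ev {r : ℕ} (M : List (V r)) (u : V r) : ℤ :=
  M.length - (M.map fun v => (-1 : ℤ) ^ (u ⬝ᵥ v).val).sum

def M0 : List (V 2) := [![1, 0], ![0, 1], ![1, 1], ![1, 1], ![1, 1]]

theorem sm {A : Type} [AddCommMonoid A] (f : V 2 → A) :
    ∑ u, f u = f 0 + (f ![1, 0] + (f ![0, 1] + f ![1, 1])) := by
  rw [show (univ : Finset (V 2)) = {0, ![1, 0], ![0, 1], ![1, 1]} by decide +kernel]
  rw [sum_insert (by decide), sum_insert (by decide), sum_pair (by decide)]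

theorem tor (x : V 2 → ℤ) : (im M0).mkQ x ∈ K M0 ↔ ∑ u, x u = 0 := by
  refine isOfFinAddOrder_iff_nsmul_eq_zero.trans ⟨fun ⟨n, hn, h⟩ => ?_, fun h => ⟨8, by norm_num, ?_⟩⟩
  · obtain ⟨y, hy⟩ := (Submodule.Quotient.mk_eq_zero _).mp ((map_nsmul (im M0).mkQ n x).trans h)
    have := congrArg ((fun _ => 1 : V 2 → ℤ) ⬝ᵥ ·) hy
    simp only [mulVecLin_apply, dotProduct_mulVec] at this
    rw [show (fun _ => 1 : V 2 → ℤ) ᵥ* lap M0 = 0 by decide +kernel, zero_dotProduct,
      dotProduct_smul] at this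
    simpa [hn.ne', dotProduct] using this
  · refine (map_nsmul (im M0).mkQ 8 x).symm.trans ((Submodule.Quotient.mk_eq_zero _).mpr
      ⟨(Matrix.of fun u w : V 2 => (([[0, -1, -1, -2], [0, 2, 1, -1], [0, 1, 2, -1], []].getD
        ((u 0).val + 2 * (u 1).val) []).getD ((w 0).val + 2 * (w 1).val) 0 : ℤ)) *ᵥ x, ?_⟩)
    rw [mulVecLin_apply, mulVec_mulVec, show lap M0 * _ = (8 : ℤ) • (1 - Matrix.of fun u _ =>
      if u = 0 then 1 else 0) by decide +kernel]
    ext u
    simp only [smul_mulVec, sub_mulVec, one_mulVec]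
    by_cases c : u = 0 <;> simp [mulVec, dotProduct, h, c]

theorem result : ∃ M : List (V 2), IsGen M ∧ gcdMult M = 1 ∧
    ¬ (∀ u ≠ 0, ∀ w ≠ 0, padicValInt 2 (ev M u) = padicValInt 2 (ev M w)) ∧ Even (d M) := by
  refine ⟨M0, ⟨by decide +kernel, eq_top_iff.mpr fun v _ => ?_⟩, by decide +kernel, fun h => ?_, ?_⟩
  · rcases (by decide +kernel : ∀ v : V 2, v = 0 ∨ v ∈ M0) v with rfl | h
    exacts [zero_mem _, Submodule.subset_span h]
  · have := h ![1, 0] (by decide) ![1, 1] (by decide)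
    rw [show ev M0 ![1, 0] = (2 ^ 3 : ℕ) by decide +kernel, show ev M0 ![1, 1] = (2 ^ 2 : ℕ) by
      decide +kernel, padicValInt.of_nat, padicValInt.of_nat, padicValNat.prime_pow,
      padicValNat.prime_pow] at this
    omega
  let φ : (V 2 → ℤ) →ₗ[ℤ] ZMod 2 × ZMod 2 :=
    { toFun := fun x => (x ![1, 0] - x 0, x ![0, 1] - x 0)
      map_add' := fun x y => by ext <;> simp <;> ring
      map_smul' := fun c x => by ext <;> simp <;> ring }
  have l : ∀ u w, ((lap M0 u w : ℤ) : ZMod 2) = 1 := by decide +kernel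
  have k : im M0 ≤ LinearMap.ker φ := by
    rintro _ ⟨y, rfl⟩
    ext <;> simp [φ, mulVec, dotProduct, l]
  let ψ : K M0 →ₗ[ℤ] ZMod 2 × ZMod 2 :=
    (((im M0).liftQ φ k).toAddMonoidHom.comp (K M0).subtype).toIntLinearMap
  have a : LinearMap.range (LinearMap.lsmul ℤ (K M0) (2 : ℕ)) = LinearMap.ker ψ := by
    refine le_antisymm ?_ ?_
    · rintro _ ⟨x, rfl⟩
      rw [LinearMap.mem_ker, LinearMap.lsmul_apply, map_smul]
      exact (by decide : ∀ z : ZMod 2 × ZMod 2, ((2 : ℕ) : ℤ) • z = 0) _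
    · rintro ⟨x, hx⟩ h
      obtain ⟨x, rfl⟩ := (im M0).mkQ_surjective x
      have t := (tor x).mp hx
      have p : ∀ u, ((x u : ℤ) : ZMod 2) = x 0 := by
        have a : φ x = 0 := h
        have b := congrArg (Int.cast (R := ZMod 2)) t
        rw [Int.cast_sum, Int.cast_zero, sm] at b
        obtain ⟨a1, a2, a3⟩ := (by decide : ∀ a b c e : ZMod 2, (b - a, c - a) = 0 →
          a + (b + (c + e)) = 0 → b = a ∧ c = a ∧ e = a) _ _ _ _ a b
        intro u
        rcases (by decide : ∀ u : V 2, u = 0 ∨ u = ![1, 0] ∨ u = ![0, 1] ∨ u = ![1, 1]) u with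
          rfl | rfl | rfl | rfl
        exacts [rfl, a1, a2, a3]
      choose y hy using fun u => (ZMod.intCast_zmod_eq_zero_iff_dvd (x u - lap M0 u 0 * x 0) 2).mp
        (by simp [l, p u])
      have s : ∑ u, y u = 0 := by
        have := sum_congr rfl fun u (_ : u ∈ univ) => hy u
        rw [sum_sub_distrib, ← sum_mul, t, show ∑ u, lap M0 u 0 = 0 by decide +kernel,
          ← mul_sum] at this
        simpa using this
      refine ⟨⟨_, (tor y).mpr s⟩, Subtype.ext ((map_zsmul (im M0).mkQ _ y).symm.trans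
        ((Submodule.Quotient.eq _).mpr ⟨Pi.single 0 (-x 0), ?_⟩))⟩
      ext u
      simp [show (2 : ℤ) * y u = _ from (hy u).symm]
  have f : ∀ x hx, ψ ⟨(im M0).mkQ x, hx⟩ = φ x := fun _ _ => rfl
  have b : Function.Surjective ψ := fun z => by
    refine ⟨⟨_, (tor fun u => if u = 0 then 0 else if u = ![1, 0] then z.1.val else
      if u = ![0, 1] then z.2.val else -z.1.val - z.2.val).mpr ?_⟩, ?_⟩
    · rw [sm]
      simp [show (![1, 0] : V 2) ≠ 0 by decide, show (![0, 1] : V 2) ≠ 0 by decide,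
        show (![1, 1] : V 2) ≠ 0 by decide]
    · rw [f]
      ext <;> simp [φ, show (![1, 0] : V 2) ≠ 0 by decide, show (![0, 1] : V 2) ≠ 0 by decide]
  have c : Nat.card (ModN (K M0) 2) = 2 ^ 2 := by
    rw [Nat.card_congr ((Submodule.quotEquivOfEq _ _ a).trans
      (ψ.quotKerEquivOfSurjective b)).toEquiv]
    simp
  have : Finite (ModN (K M0) 2) := Nat.finite_of_card_ne_zero (by omega)
  rw [Module.natCard_eq_pow_finrank (K := ZMod 2), Nat.card_zmod] at c
  rw [show d M0 = 2 from Nat.pow_right_injective le_rfl c]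
  exact even_two

end Pool.Agent.Results.MP_8ee885_co.Counter
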